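import Pool.Agent.Q208.AB.TRAW

/-!
# AB-CNTW: one half of all types have an odd weighted parity
-/

set_option autoImplicit false

open Finset Real
open scoped Classical

namespace Pool.Agent.Q208.AB

open Pool.Agent.Q29.AB

/-- exchange of `1` and `c` -/
theorem symm_types' {G : Type} [CommGroup G] [Fintype G] (c : G) (hc : c * c = 1) (Ψ : Finset G)
    (hΨ : Ψ ∈ types c) : symmDiff Ψ {1, c} ∈ types c := by
  rw [mem_types'] at hΨ ⊢
  intro x
  have h1 : c * x ∈ ({1, c} : Finset G) ↔ x ∈ ({1, c} : Finset G) := by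
    simp only [mem_insert, mem_singleton]
    constructor
    · rintro (h | h)
      · right
        have : c * (c * x) = c * 1 := by rw [h]
        rwa [← mul_assoc, hc, one_mul, mul_one] at this
      · left
        exact mul_eq_left.mp h
    · rintro (h | h)
      · right
        rw [h, mul_one]
      · left
        rw [h, hc]
  rw [mem_symmDiff, mem_symmDiff, h1, hΨ x]
  tauto

lemma one_ne' : (1 : ℂˣ) ≠ -1 := by
  intro h
  have := congrArg (fun u : ℂˣ => (u : ℂ)) h
  simp only [Units.val_one, Units.val_neg] at this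
  norm_num at this

/-- the sum changes by twice the weight of `1` -/
theorem sInt_symm {G : Type} [CommGroup G] [Fintype G] (c : G) (hc1 : c ≠ 1) (M : G → ℤ)
    (hM : ∀ x, M (c * x) = M x) (χ₀ : G →* ℂˣ) (hχ : χ₀ c = -1) (Ψ : Finset G)
    (hΨ : Ψ ∈ types c) :
    sInt M χ₀ (symmDiff Ψ {1, c}) = sInt M χ₀ Ψ - 2 * M 1 ∨
      sInt M χ₀ (symmDiff Ψ {1, c}) = sInt M χ₀ Ψ + 2 * M 1 := by
  rw [mem_types'] at hΨ
  have hMc : M c = M 1 := by
    have := hM 1
    rwa [mul_one] at this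
  have hc1' : ¬ (χ₀ c = 1) := by
    rw [hχ]
    exact fun h => one_ne' h.symm
  have key : ∀ (U : Finset G), 1 ∈ U → c ∉ U →
      sInt M χ₀ (symmDiff U {1, c}) = sInt M χ₀ U - 2 * M 1 := by
    intro U h1 h2
    have e1 : symmDiff U {1, c} = insert c (U.erase 1) := by
      ext x
      simp only [mem_symmDiff, mem_insert, mem_erase, mem_singleton]
      constructor
      · rintro (⟨h3, h4⟩ | ⟨h3, h4⟩)
        · exact Or.inr ⟨fun h => h4 (Or.inl h), h3⟩
        · rcases h3 with h3 | h3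
          · rw [h3] at h4
            exact absurd h1 h4
          · exact Or.inl h3
      · rintro (h3 | ⟨h3, h4⟩)
        · right
          exact ⟨Or.inr h3, by rw [h3]; exact h2⟩
        · left
          refine ⟨h4, ?_⟩
          rintro (h5 | h5)
          · exact h3 h5
          · rw [h5] at h4
            exact h2 h4
    have h3 : c ∉ U.erase 1 := fun h => h2 (mem_of_mem_erase h)
    unfold sInt
    rw [e1, sum_insert h3, ← Finset.add_sum_erase U _ h1, hMc, if_neg hc1', if_pos (map_one χ₀)]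
    ring
  have hc0 : (1 : G) ∈ Ψ ∨ c ∈ Ψ := by
    by_contra hcon
    push Not at hcon
    apply hcon.2
    have := (hΨ 1).2 hcon.1
    rwa [mul_one] at this
  by_cases h1 : (1 : G) ∈ Ψ
  · left
    apply key Ψ h1
    intro h2
    have h3 := (hΨ 1).1 (by rwa [mul_one])
    exact h3 h1
  · right
    have h2 : c ∈ Ψ := hc0.resolve_left h1
    have h3 := key (symmDiff Ψ {1, c}) (by
      rw [mem_symmDiff]
      exact Or.inr ⟨by simp, h1⟩) (by
      rw [mem_symmDiff]
      rintro (⟨_, h⟩ | ⟨_, h⟩)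
      · exact h (by simp)
      · exact h h2)
    rw [symmDiff_symmDiff_cancel_right] at h3
    rw [h3]
    ring

/-- a sum of an even number of odd integers is even -/
lemma even_sum_odd {ι : Type} (S : Finset ι) (f : ι → ℤ) (hf : ∀ i ∈ S, Odd (f i))
    (hS : Even S.card) : Even (∑ i ∈ S, f i) := by
  have h : ∀ S : Finset ι, (∀ i ∈ S, Odd (f i)) → (∑ i ∈ S, f i) % 2 = (S.card : ℤ) % 2 := by
    intro S
    induction S using Finset.induction_on with
    | empty =>
      intro _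
      simp
    | insert a S ha ih =>
      intro h
      rw [sum_insert ha, card_insert_of_notMem ha]
      have h1 := ih fun i hi => h i (mem_insert_of_mem hi)
      obtain ⟨k, hk⟩ := h a (mem_insert_self a S)
      push_cast
      omega
  have h1 := h S hf
  obtain ⟨k, hk⟩ := hS
  rw [Int.even_iff, h1, hk]
  push_cast
  omega

/-- the weighted sum of a type is even -/
theorem sInt_even {G : Type} [CommGroup G] (M : G → ℤ) (hM : ∀ x, Odd (M x)) (χ₀ : G →* ℂˣ)
    (Ψ : Finset G) (h : Even Ψ.card) : Even (sInt M χ₀ Ψ) := by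
  unfold sInt
  apply even_sum_odd _ _ _ h
  intro x _
  split_ifs
  · rw [mul_one]
    exact hM x
  · rw [mul_neg, mul_one]
    exact (hM x).neg

theorem t_CNTW : S_CNTW := by
  intro hTRA hCNT G _ _ c M g χ₀ hc hc1 hG hg hMo hM hχ hχ2
  have hfin : Finite (G →* ℂˣ) := by
    obtain ⟨e⟩ := CommGroup.monoidHom_mulEquiv_of_hasEnoughRootsOfUnity G ℂ
    exact Finite.of_equiv G e.symm.toEquiv
  let _ := Fintype.ofFinite (G →* ℂˣ)
  have hcard : (types c).card = 2 ^ g := (hCNT hTRA G c g hc hc1 hG).1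
  have heven : ∀ Ψ ∈ types c, Even (sInt M χ₀ Ψ) := by
    intro Ψ hΨ
    apply sInt_even M hMo χ₀ Ψ
    rw [(hTRA G c g Ψ hc hG hΨ).1]
    obtain ⟨k, rfl⟩ := hg
    exact ⟨2 * k, by ring⟩
  have hsw : ∀ Ψ ∈ types c, (sInt M χ₀ (symmDiff Ψ {1, c}) % 4 = 2 ↔ ¬ sInt M χ₀ Ψ % 4 = 2) := by
    intro Ψ hΨ
    obtain ⟨k, hk⟩ := heven Ψ hΨ
    obtain ⟨l, hl⟩ := hMo 1
    rcases sInt_symm c hc1 M hM χ₀ hχ Ψ hΨ with h | h
    · rw [h]
      omega
    · rw [h]
      omega
  have hcc : ∀ Ψ : Finset G, symmDiff (symmDiff Ψ {1, c}) {1, c} = Ψ := fun Ψ =>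
    symmDiff_symmDiff_cancel_right _ _
  have h1 : ((types c).filter fun Ψ => sInt M χ₀ Ψ % 4 = 2).card =
      ((types c).filter fun Ψ => ¬ sInt M χ₀ Ψ % 4 = 2).card := by
    refine Finset.card_nbij' (fun Ψ => symmDiff Ψ {1, c}) (fun Ψ => symmDiff Ψ {1, c})
      ?_ ?_ ?_ ?_
    · intro Ψ hΨ
      rw [mem_coe, mem_filter] at hΨ ⊢
      refine ⟨symm_types' c hc Ψ hΨ.1, ?_⟩
      rw [hsw Ψ hΨ.1, not_not]
      exact hΨ.2
    · intro Ψ hΨ
      rw [mem_coe, mem_filter] at hΨ ⊢
      exact ⟨symm_types' c hc Ψ hΨ.1, (hsw Ψ hΨ.1).mpr hΨ.2⟩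
    · intro Ψ _
      exact hcc Ψ
    · intro Ψ _
      exact hcc Ψ
  have h2 : ((types c).filter fun Ψ => sInt M χ₀ Ψ % 4 = 2).card +
      ((types c).filter fun Ψ => ¬ sInt M χ₀ Ψ % 4 = 2).card = (types c).card :=
    Finset.card_filter_add_card_filter_not _
  rw [← h1, hcard] at h2
  omega

end Pool.Agent.Q208.AB
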