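import Pool.Agent.Q29.AB.Stm2

/-!
# AB-FOUW: a good type has no relations, with weights
-/

set_option autoImplicit false

open Finset Real
open scoped Classical

namespace Pool.Agent.Q208.AB

open Pool.Agent.Q29.AB

theorem t_FOUW : S_FOUW := by
  intro G _ _ c M Ψ m hc hM hΨ hm hrel
  unfold goodW at hΨ
  obtain ⟨-, hgood⟩ := Finset.mem_filter.1 hΨ
  have hfin : Finite (G →* ℂˣ) := by
    obtain ⟨e⟩ := CommGroup.monoidHom_mulEquiv_of_hasEnoughRootsOfUnity G ℂ
    exact Finite.of_equiv G e.symm.toEquiv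
  let _ := Fintype.ofFinite (G →* ℂˣ)
  obtain ⟨e, he1, he2⟩ : ∃ e : G → ℤ, (∀ z, z ∈ Ψ → e z = M z) ∧ ∀ z, z ∉ Ψ → e z = -M z :=
    ⟨fun z => if z ∈ Ψ then M z else -M z, fun z hz => if_pos hz, fun z hz => if_neg hz⟩
  have hrel' : ∀ y, ∑ x, m x * e (y * x) = 0 := by
    intro y
    refine (Finset.sum_congr rfl fun x _ => ?_).trans (hrel y)
    congr 1
    split_ifs with h
    · rw [he1 _ h, one_mul]
    · rw [he2 _ h]
      ring
  -- the value of the characters at `c`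
  have hpm : ∀ χ : G →* ℂˣ, χ c = 1 ∨ χ c = -1 := by
    intro χ
    have h1 : (χ c) ^ 2 = 1 := by rw [← map_pow, sq, hc, map_one]
    have h2 : ((χ c : ℂˣ) : ℂ) ^ 2 = 1 := by rw [← Units.val_pow_eq_pow_val, h1, Units.val_one]
    rcases sq_eq_one_iff.1 h2 with h3 | h3
    · exact Or.inl (Units.ext h3)
    · exact Or.inr (Units.ext h3)
  -- orthogonality to all characters
  have horth : ∀ χ : G →* ℂˣ, ∑ x, (m x : ℂ) * ((χ x⁻¹ : ℂˣ) : ℂ) = 0 := by
    intro χ
    rcases hpm χ with h1 | h1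
    · have h2 : ∑ x, (m (c * x) : ℂ) * ((χ (c * x)⁻¹ : ℂˣ) : ℂ) =
          ∑ x, (m x : ℂ) * ((χ x⁻¹ : ℂˣ) : ℂ) :=
        Fintype.sum_equiv (Equiv.mulLeft c) _ _ fun x => rfl
      have h3 : ∀ x, (m (c * x) : ℂ) * ((χ (c * x)⁻¹ : ℂˣ) : ℂ) =
          -((m x : ℂ) * ((χ x⁻¹ : ℂˣ) : ℂ)) := by
        intro x
        rw [hm, mul_inv, map_mul, map_inv, h1, inv_one, one_mul]
        push_cast
        ring
      simp only [h3, Finset.sum_neg_distrib] at h2
      have h4 : (2 : ℂ) * ∑ x, (m x : ℂ) * ((χ x⁻¹ : ℂˣ) : ℂ) = 0 := by linear_combination -h2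
      rcases mul_eq_zero.1 h4 with h5 | h5
      · norm_num at h5
      · exact h5
    · -- the weighted sum of an odd character over the group is zero
      have hzero : ∑ z, (M z : ℂ) * ((χ z : ℂˣ) : ℂ) = 0 := by
        have h2 : ∑ z, (M (c * z) : ℂ) * ((χ (c * z) : ℂˣ) : ℂ) =
            ∑ z, (M z : ℂ) * ((χ z : ℂˣ) : ℂ) :=
          Fintype.sum_equiv (Equiv.mulLeft c) _ _ fun x => rfl
        have h3 : ∀ z, (M (c * z) : ℂ) * ((χ (c * z) : ℂˣ) : ℂ) =
            -((M z : ℂ) * ((χ z : ℂˣ) : ℂ)) := by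
          intro z
          rw [hM, map_mul, h1]
          simp
        simp only [h3, Finset.sum_neg_distrib] at h2
        have h4 : (2 : ℂ) * ∑ z, (M z : ℂ) * ((χ z : ℂˣ) : ℂ) = 0 := by linear_combination -h2
        rcases mul_eq_zero.1 h4 with h5 | h5
        · norm_num at h5
        · exact h5
      have h2 : ∑ z, (e z : ℂ) * ((χ z : ℂˣ) : ℂ) = 2 * wSum M χ Ψ := by
        have h3 : ∀ z, (e z : ℂ) * ((χ z : ℂˣ) : ℂ) =
            2 * (if z ∈ Ψ then (M z : ℂ) * ((χ z : ℂˣ) : ℂ) else 0) -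
              (M z : ℂ) * ((χ z : ℂˣ) : ℂ) := by
          intro z
          split_ifs with h
          · rw [he1 z h]; ring
          · rw [he2 z h]; push_cast; ring
        simp only [h3]
        rw [Finset.sum_sub_distrib, hzero, sub_zero, ← Finset.mul_sum]
        congr 1
        unfold wSum
        rw [← Finset.sum_filter]
        congr 1
        ext z
        simp
      have h4 : (∑ x, (m x : ℂ) * ((χ x⁻¹ : ℂˣ) : ℂ)) * (2 * wSum M χ Ψ) = 0 := by
        rw [← h2]
        calc (∑ x, (m x : ℂ) * ((χ x⁻¹ : ℂˣ) : ℂ)) * ∑ z, (e z : ℂ) * ((χ z : ℂˣ) : ℂ) =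
              ∑ x, (m x : ℂ) * ((χ x⁻¹ : ℂˣ) : ℂ) * ∑ z, (e z : ℂ) * ((χ z : ℂˣ) : ℂ) :=
              Finset.sum_mul _ _ _
          _ = ∑ x, ∑ y, (m x : ℂ) * ((e (y * x) : ℂ) * ((χ y : ℂˣ) : ℂ)) := by
              refine Finset.sum_congr rfl fun x _ => ?_
              rw [mul_assoc, Finset.mul_sum, Finset.mul_sum]
              symm
              refine Fintype.sum_equiv (Equiv.mulRight x) _ _ fun y => ?_
              simp only [Equiv.coe_mulRight]
              have : ((χ y : ℂˣ) : ℂ) = ((χ x⁻¹ : ℂˣ) : ℂ) * ((χ (y * x) : ℂˣ) : ℂ) := by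
                rw [← Units.val_mul, ← map_mul]
                congr 2
                rw [mul_comm y x, inv_mul_cancel_left]
              rw [this]
              ring
          _ = ∑ y, ((χ y : ℂˣ) : ℂ) * ((∑ x, m x * e (y * x) : ℤ) : ℂ) := by
              rw [Finset.sum_comm]
              refine Finset.sum_congr rfl fun y _ => ?_
              push_cast
              rw [Finset.mul_sum]
              refine Finset.sum_congr rfl fun x _ => ?_
              ring
          _ = 0 := by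
              refine Finset.sum_eq_zero fun y _ => ?_
              rw [hrel' y]
              simp
      rcases mul_eq_zero.1 h4 with h5 | h5
      · exact h5
      · exfalso
        rcases mul_eq_zero.1 h5 with h6 | h6
        · norm_num at h6
        · exact hgood χ h1 h6
  -- the characters separate points
  have hdual : ∀ y : G, y ≠ 1 → ∑ χ : G →* ℂˣ, ((χ y : ℂˣ) : ℂ) = 0 := by
    intro y hy
    obtain ⟨η, hη⟩ := CommGroup.exists_apply_ne_one_of_hasEnoughRootsOfUnity G ℂ hy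
    have h1 : ∑ χ : G →* ℂˣ, (((η * χ) y : ℂˣ) : ℂ) = ∑ χ : G →* ℂˣ, ((χ y : ℂˣ) : ℂ) :=
      Fintype.sum_equiv (Equiv.mulLeft η) _ _ fun x => rfl
    have h2 : ∑ χ : G →* ℂˣ, (((η * χ) y : ℂˣ) : ℂ) =
        ((η y : ℂˣ) : ℂ) * ∑ χ : G →* ℂˣ, ((χ y : ℂˣ) : ℂ) := by
      rw [Finset.mul_sum]
      refine Finset.sum_congr rfl fun χ _ => ?_
      rw [MonoidHom.mul_apply, Units.val_mul]
    rw [h2] at h1
    have h3 : (((η y : ℂˣ) : ℂ) - 1) * ∑ χ : G →* ℂˣ, ((χ y : ℂˣ) : ℂ) = 0 := by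
      linear_combination h1
    rcases mul_eq_zero.1 h3 with h4 | h4
    · exfalso
      apply hη
      apply Units.ext
      rw [Units.val_one]
      exact sub_eq_zero.1 h4
    · exact h4
  funext x0
  have h1 : ∑ χ : G →* ℂˣ, ((χ x0 : ℂˣ) : ℂ) * ∑ x, (m x : ℂ) * ((χ x⁻¹ : ℂˣ) : ℂ) = 0 :=
    Finset.sum_eq_zero fun χ _ => by rw [horth χ, mul_zero]
  have h2 : ∑ χ : G →* ℂˣ, ((χ x0 : ℂˣ) : ℂ) * ∑ x, (m x : ℂ) * ((χ x⁻¹ : ℂˣ) : ℂ) =
      ∑ x, (m x : ℂ) * ∑ χ : G →* ℂˣ, ((χ (x0 * x⁻¹) : ℂˣ) : ℂ) := by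
    simp only [Finset.mul_sum]
    rw [Finset.sum_comm]
    refine Finset.sum_congr rfl fun x _ => Finset.sum_congr rfl fun χ _ => ?_
    rw [map_mul, Units.val_mul]
    ring
  rw [h2, Finset.sum_eq_single x0] at h1
  · rw [mul_inv_cancel] at h1
    simp only [map_one, Units.val_one, Finset.sum_const, Finset.card_univ, nsmul_eq_mul,
      mul_one] at h1
    rcases mul_eq_zero.1 h1 with h3 | h3
    · have h4 : m x0 = 0 := by exact_mod_cast h3
      exact h4
    · exfalso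
      have h5 : Fintype.card (G →* ℂˣ) = 0 := by exact_mod_cast h3
      exact Fintype.card_ne_zero h5
  · intro x _ hx
    rw [hdual, mul_zero]
    intro h
    exact hx (mul_inv_eq_one.1 h).symm
  · intro h
    exact absurd (Finset.mem_univ x0) h

end Pool.Agent.Q208.AB
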