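import Pool.Agent.Q208.AB.CNTW

/-!
# AB-PARW: the weighted parity does not depend on the quadratic character
-/

set_option autoImplicit false

open Finset Real
open scoped Classical

namespace Pool.Agent.Q208.AB

open Pool.Agent.Q29.AB

lemma pm_of_sq' {G : Type} [CommGroup G] {χ : G →* ℂˣ} (h : χ ^ 2 = 1) (x : G) :
    χ x = 1 ∨ χ x = -1 := by
  have h1 : (χ x) ^ 2 = 1 := by
    have := DFunLike.congr_fun h x
    simpa using this
  have h2 : ((χ x : ℂˣ) : ℂ) ^ 2 = 1 := by
    rw [← Units.val_pow_eq_pow_val, h1, Units.val_one]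
  rcases sq_eq_one_iff.1 h2 with h3 | h3
  · exact Or.inl (Units.ext h3)
  · exact Or.inr (Units.ext h3)

theorem t_PARW : S_PARW := by
  intro G _ _ c M g χ ψ Ψ hc hG hg hMo hχ hψ hχ2 hψ2 hΨ
  rw [mem_types'] at hΨ
  have hcc : ∀ x, c * (c * x) = x := fun x => by rw [← mul_assoc, hc, one_mul]
  by_cases hne : χ = ψ
  · rw [hne]
  obtain ⟨x0, hx0⟩ : ∃ x, χ x ≠ ψ x := by
    by_contra h
    push Not at h
    exact hne (MonoidHom.ext h)
  have hv := one_ne'
  have hcx : ∀ x, χ (c * x) = -χ x := fun x => by rw [map_mul, hχ, neg_one_mul]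
  have hcy : ∀ x, ψ (c * x) = -ψ x := fun x => by rw [map_mul, hψ, neg_one_mul]
  have hcase : ∀ x, (χ x = 1 ∨ χ x = -1) ∧ (ψ x = 1 ∨ ψ x = -1) :=
    fun x => ⟨pm_of_sq' hχ2 x, pm_of_sq' hψ2 x⟩
  obtain ⟨E, hE⟩ : ∃ E : Finset G, E = univ.filter fun x => χ x ≠ ψ x := ⟨_, rfl⟩
  have hopp : ∀ x, χ x ≠ ψ x → χ x = -ψ x := by
    intro x hx
    rcases hcase x with ⟨h1 | h1, h2 | h2⟩
    · exact absurd (h1.trans h2.symm) hx
    · rw [h1, h2, neg_neg]
    · rw [h1, h2]
    · exact absurd (h1.trans h2.symm) hx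
  have hEc : (univ.filter fun x => ¬ χ x ≠ ψ x).card = E.card := by
    have hx00 := hopp x0 hx0
    refine Finset.card_nbij' (fun x => x0 * x) (fun x => x0⁻¹ * x) ?_ ?_ ?_ ?_
    · intro x hx
      rw [Finset.coe_filter] at hx
      rw [hE, Finset.coe_filter]
      refine ⟨Finset.mem_univ _, fun h => ?_⟩
      have h5 := not_not.mp hx.2
      rw [map_mul, map_mul, h5] at h
      exact hx0 (mul_right_cancel h)
    · intro x hx
      rw [hE, Finset.coe_filter] at hx
      rw [Finset.coe_filter]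
      refine ⟨Finset.mem_univ _, ?_⟩
      have h3 := hopp x hx.2
      rw [not_not, map_mul, map_mul, map_inv, map_inv, hx00, h3, inv_neg, neg_mul_neg]
    · exact fun x _ => by simp
    · exact fun x _ => by simp
  have htot : E.card + E.card = 2 * g := by
    rw [← hG]
    have h1 : (univ.filter fun x => χ x ≠ ψ x).card + (univ.filter fun x => ¬ χ x ≠ ψ x).card =
      (univ : Finset G).card := Finset.card_filter_add_card_filter_not _
    rw [hEc, ← hE, Finset.card_univ] at h1
    exact h1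
  -- the type contains one half of `E`
  have e3 : (Ψ ∩ E).card = (E \ Ψ).card := by
    have hcE : ∀ x, x ∈ E → c * x ∈ E := by
      intro x hx
      rw [hE, mem_filter] at hx ⊢
      refine ⟨mem_univ _, fun h => hx.2 ?_⟩
      rw [hcx, hcy] at h
      exact neg_injective h
    refine Finset.card_nbij' (fun x => c * x) (fun x => c * x) ?_ ?_ ?_ ?_
    · intro x hx
      rw [Finset.mem_coe, Finset.mem_inter] at hx
      rw [Finset.mem_coe, Finset.mem_sdiff]
      exact ⟨hcE x hx.2, fun h => (hΨ x).1 h hx.1⟩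
    · intro x hx
      rw [Finset.mem_coe, Finset.mem_sdiff] at hx
      rw [Finset.mem_coe, Finset.mem_inter]
      exact ⟨(hΨ x).2 hx.2, hcE x hx.1⟩
    · exact fun x _ => hcc x
    · exact fun x _ => hcc x
  have e4 : (Ψ ∩ E).card + (E \ Ψ).card = E.card := by
    rw [Finset.inter_comm]
    exact Finset.card_inter_add_card_sdiff E Ψ
  have hev : Even (Ψ ∩ E).card := by
    obtain ⟨k, hk⟩ := hg
    exact ⟨k, by omega⟩
  -- the difference of the two sums
  have hdiff : sInt M χ Ψ - sInt M ψ Ψ =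
      2 * ∑ x ∈ Ψ ∩ E, M x * (if χ x = 1 then 1 else -1) := by
    unfold sInt
    rw [← Finset.sum_sub_distrib, Finset.mul_sum, ← Finset.sum_inter_add_sum_sdiff Ψ E]
    have h1 : ∑ x ∈ Ψ \ E, (M x * (if χ x = 1 then 1 else -1) -
        M x * (if ψ x = 1 then 1 else -1)) = 0 := by
      apply Finset.sum_eq_zero
      intro x hx
      rw [mem_sdiff, hE, mem_filter] at hx
      have h2 : χ x = ψ x := by
        by_contra h
        exact hx.2 ⟨mem_univ _, h⟩
      rw [h2, sub_self]
    rw [h1, add_zero]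
    refine Finset.sum_congr rfl fun x hx => ?_
    rw [mem_inter, hE, mem_filter] at hx
    have h2 := hx.2.2
    rcases hcase x with ⟨h3 | h3, h4 | h4⟩
    · exact absurd (h3.trans h4.symm) h2
    · rw [h3, h4, if_pos rfl, if_neg hv.symm]
      ring
    · rw [h3, h4, if_pos rfl, if_neg hv.symm]
      ring
    · exact absurd (h3.trans h4.symm) h2
  have heven : Even (∑ x ∈ Ψ ∩ E, M x * (if χ x = 1 then 1 else -1)) := by
    apply even_sum_odd _ _ _ hev
    intro x _
    split_ifs
    · rw [mul_one]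
      exact hMo x
    · rw [mul_neg, mul_one]
      exact (hMo x).neg
  obtain ⟨k, hk⟩ := heven
  rw [hk] at hdiff
  omega

end Pool.Agent.Q208.AB
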