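import Pool.Agent.Q29.AB.Stm2

/-!
# AB-TRAW: the sum of a character over a type, with weights
-/

set_option autoImplicit false

open Finset Real
open scoped Classical

namespace Pool.Agent.Q208.AB

open Pool.Agent.Q29.AB

theorem mem_types' {G : Type} [CommGroup G] [Fintype G] (c : G) (Ψ : Finset G) :
    Ψ ∈ types c ↔ ∀ x, c * x ∈ Ψ ↔ x ∉ Ψ := by
  unfold types
  rw [mem_filter]
  exact ⟨fun h => h.2, fun h => ⟨mem_univ _, h⟩⟩

theorem t_TRAW : S_TRAW := by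
  intro G _ _ c M T hc hT hM χ Ψ hχ hΨ
  rw [mem_types'] at hT hΨ
  have hcc : ∀ x : G, c * (c * x) = x := fun x => by rw [← mul_assoc, hc, one_mul]
  unfold wSum
  have h1 : ∑ x ∈ Ψ, (M x : ℂ) * (χ x : ℂ) = ∑ x ∈ Ψ ∩ T, (M x : ℂ) * (χ x : ℂ) +
      ∑ x ∈ Ψ \ T, (M x : ℂ) * (χ x : ℂ) := (Finset.sum_inter_add_sum_sdiff Ψ T _).symm
  have h2 : ∑ x ∈ T, (M x : ℂ) * (χ x : ℂ) = ∑ x ∈ Ψ ∩ T, (M x : ℂ) * (χ x : ℂ) +
      ∑ x ∈ T \ Ψ, (M x : ℂ) * (χ x : ℂ) := by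
    rw [inter_comm]
    exact (Finset.sum_inter_add_sum_sdiff T Ψ _).symm
  have h3 : ∑ x ∈ Ψ \ T, (M x : ℂ) * (χ x : ℂ) = ∑ x ∈ T \ Ψ, -((M x : ℂ) * (χ x : ℂ)) := by
    refine Finset.sum_nbij' (fun x => c * x) (fun x => c * x) ?_ ?_ ?_ ?_ ?_
    · intro x hx
      rw [mem_sdiff] at hx ⊢
      exact ⟨(hT x).2 hx.2, fun h => (hΨ x).1 h hx.1⟩
    · intro x hx
      rw [mem_sdiff] at hx ⊢
      exact ⟨(hΨ x).2 hx.2, fun h => (hT x).1 h hx.1⟩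
    · intro x _
      exact hcc x
    · intro x _
      exact hcc x
    · intro x _
      rw [map_mul, hχ, hM]
      simp
  rw [Finset.sum_neg_distrib] at h3
  rw [h1, h2, h3]
  ring

end Pool.Agent.Q208.AB
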