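import Pool.Agent.Q29.AB.Stm2

/-!
# AB-UNIW: the union bound, with weights
-/

set_option autoImplicit false

open Finset Real
open scoped Classical

namespace Pool.Agent.Q208.AB

open Pool.Agent.Q29.AB

lemma norm_char' {G : Type} [CommGroup G] [Fintype G] (χ : G →* ℂˣ) (x : G) :
    ‖((χ x : ℂˣ) : ℂ)‖ = 1 := by
  have h1 : (χ x) ^ Fintype.card G = 1 := by rw [← map_pow, pow_card_eq_one, map_one]
  have h2 : ((χ x : ℂˣ) : ℂ) ^ Fintype.card G = 1 := by
    rw [← Units.val_pow_eq_pow_val, h1, Units.val_one]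
  exact Complex.norm_eq_one_of_pow_eq_one h2 Fintype.card_ne_zero

lemma wSum_inv {G : Type} [CommGroup G] [Fintype G] (M : G → ℤ) (χ : G →* ℂˣ) (Ψ : Finset G) :
    wSum M χ⁻¹ Ψ = (starRingEnd ℂ) (wSum M χ Ψ) := by
  unfold wSum
  rw [map_sum]
  refine Finset.sum_congr rfl fun x _ => ?_
  have h := norm_char' χ x
  rw [MonoidHom.inv_apply, Units.val_inv_eq_inv_val, Complex.inv_def, Complex.normSq_eq_norm_sq, h,
    map_mul, map_intCast]
  simp

theorem t_UNIW : S_UNIW := by
  intro G _ _ c M X P hX1 hX2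
  have h1 : ∑ χ ∈ X, ((killedW c M χ).filter P).card =
      ∑ Ψ ∈ (types c).filter P, (X.filter fun χ => wSum M χ Ψ = 0).card := by
    have h2 : ∀ χ ∈ X, ((killedW c M χ).filter P).card =
        ∑ Ψ ∈ (types c).filter P, if wSum M χ Ψ = 0 then 1 else 0 := by
      intro χ _
      rw [Finset.sum_ite, Finset.sum_const_zero, add_zero, Finset.sum_const, smul_eq_mul, mul_one]
      congr 1
      ext Ψ
      unfold killedW
      simp only [Finset.mem_filter]
      tauto
    rw [Finset.sum_congr rfl h2, Finset.sum_comm]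
    refine Finset.sum_congr rfl fun Ψ _ => ?_
    rw [Finset.sum_ite, Finset.sum_const_zero, add_zero, Finset.sum_const, smul_eq_mul, mul_one]
  rw [h1]
  have hsub : ((types c).filter fun Ψ => P Ψ ∧ ∃ χ ∈ X, wSum M χ Ψ = 0) ⊆
      (types c).filter P := by
    intro Ψ hΨ
    rw [Finset.mem_filter] at hΨ ⊢
    exact ⟨hΨ.1, hΨ.2.1⟩
  calc 2 * ((types c).filter fun Ψ => P Ψ ∧ ∃ χ ∈ X, wSum M χ Ψ = 0).card =
        ∑ Ψ ∈ (types c).filter fun Ψ => P Ψ ∧ ∃ χ ∈ X, wSum M χ Ψ = 0, 2 := by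
        rw [Finset.sum_const, smul_eq_mul, mul_comm]
    _ ≤ ∑ Ψ ∈ (types c).filter fun Ψ => P Ψ ∧ ∃ χ ∈ X, wSum M χ Ψ = 0,
        (X.filter fun χ => wSum M χ Ψ = 0).card := by
        refine Finset.sum_le_sum fun Ψ hΨ => ?_
        rw [Finset.mem_filter] at hΨ
        obtain ⟨-, -, χ, hχ, h0⟩ := hΨ
        have hne : χ ≠ χ⁻¹ := by
          intro h
          have h3 : χ ^ 2 = 1 := by
            rw [sq]
            nth_rewrite 2 [h]
            exact mul_inv_cancel χ
          have h4 := Nat.le_of_dvd (by norm_num) (orderOf_dvd_of_pow_eq_one h3)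
          have := hX2 χ hχ
          omega
        have h5 : ({χ, χ⁻¹} : Finset (G →* ℂˣ)) ⊆ X.filter fun χ => wSum M χ Ψ = 0 := by
          intro η hη
          rw [Finset.mem_insert, Finset.mem_singleton] at hη
          rw [Finset.mem_filter]
          rcases hη with rfl | rfl
          · exact ⟨hχ, h0⟩
          · exact ⟨hX1 χ hχ, by rw [wSum_inv, h0, map_zero]⟩
        calc 2 = ({χ, χ⁻¹} : Finset (G →* ℂˣ)).card := (Finset.card_pair hne).symm
          _ ≤ _ := Finset.card_le_card h5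
    _ ≤ _ := Finset.sum_le_sum_of_subset hsub

end Pool.Agent.Q208.AB
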